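import Pool.Agent.MP_c1891a_nt.H79.Spec

/-
The archimedean step.
-/

namespace Pool.Agent.MP_c1891a_nt.H60

open Finset Polynomial Pool.Agent.MP_c1891a_nt.H79

namespace TA

variable {ι : Type}

theorem norm_root {n : ℕ} (hn : 0 < n) {ω : ℂ} (h : ω ^ n = 1) (k : ℤ) : ‖ω ^ k‖ = 1 := by
  rw [norm_zpow, Complex.norm_eq_one_of_pow_eq_one h hn.ne', one_zpow]

theorem int_root {n : ℕ} (hn : 0 < n) {ω : ℂ} (h : ω ^ n = 1) (k : ℤ) : IsIntegral ℤ (ω ^ k) :=
  IsIntegral.of_pow hn (by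
    rw [← zpow_natCast, ← zpow_mul, mul_comm, zpow_mul, zpow_natCast, h, one_zpow]
    exact isIntegral_one)

theorem root_ne {n : ℕ} (hn : 0 < n) {ω : ℂ} (h : ω ^ n = 1) : ω ≠ 0 := fun c => by
  rw [c, zero_pow hn.ne'] at h
  exact zero_ne_one h

theorem coeff_le (I : Finset ι) (e : ι → ℕ) (a : ℂ → ι → ℂ) {H : ℝ} (T : Finset ℂ)
    (h : ∀ ω ∈ T, ∑ i ∈ I, ‖a ω i‖ ≤ H) (n : ℕ) :
    ‖(∏ ω ∈ T, ∑ i ∈ I, C (a ω i) * X ^ e i).coeff n‖ ≤ H ^ T.card := by
  induction T using Finset.induction_on generalizing n with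
  | empty =>
    rw [prod_empty, coeff_one]
    split_ifs <;> simp
  | insert ω T hω ih =>
    have ih' := ih fun x hx => h x (mem_insert_of_mem hx)
    have h0 : 0 ≤ H ^ T.card := (norm_nonneg _).trans (ih' 0)
    rw [prod_insert hω, card_insert_of_notMem hω, sum_mul, finsetSum_coeff, pow_succ']
    refine (norm_sum_le _ _).trans (le_trans (sum_le_sum fun i _ => ?_)
      ((sum_mul I (fun i => ‖a ω i‖) _).symm.le.trans
        (mul_le_mul_of_nonneg_right (h ω (mem_insert_self ω T)) h0)))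
    rw [mul_assoc, coeff_C_mul, norm_mul, coeff_X_pow_mul']
    refine mul_le_mul_of_nonneg_left ?_ (norm_nonneg _)
    split_ifs
    · exact ih' _
    · simpa using h0

theorem not_int {c : ℤ} (hc : 2 ≤ |c|) {b : ℂ} (hb : IsIntegral ℤ b) : 1 + c * b ≠ 0 := by
  intro h
  have c0 : c ≠ 0 := fun e => by simp [e] at hc
  have c1 : (c : ℂ) ≠ 0 := by exact_mod_cast c0
  have e : b = algebraMap ℚ ℂ (-1 / c) := by
    simp only [eq_ratCast, Rat.cast_div, Rat.cast_neg, Rat.cast_one, Rat.cast_intCast]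
    rw [eq_div_iff c1]
    linear_combination h
  rw [e, isIntegral_algebraMap_iff (algebraMap ℚ ℂ).injective] at hb
  obtain ⟨y, hy⟩ := IsIntegrallyClosed.isIntegral_iff.1 hb
  have c2 : (c : ℚ) ≠ 0 := by exact_mod_cast c0
  rw [eq_div_iff c2, eq_intCast] at hy
  have h1 : c * y = -1 := by
    rw [mul_comm]
    exact_mod_cast hy
  rcases Int.eq_one_or_neg_one_of_mul_eq_neg_one h1 with h2 | h2 <;> simp [h2] at hc

theorem perm {Q : ℕ} (hQ : 0 < Q) {t : ℤ} (ht : IsCoprime t (Q : ℤ)) (F : ℂ → ℝ) :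
    ∏ σ ∈ primitiveRoots Q ℂ, F (σ ^ t) = ∏ σ ∈ primitiveRoots Q ℂ, F σ := by
  obtain ⟨a, b, e⟩ := ht
  have key : ∀ σ ∈ primitiveRoots Q ℂ, σ ^ (a * t) = σ := fun σ hσ => by
    have h := ((mem_primitiveRoots hQ).1 hσ).pow_eq_one
    rw [show a * t = 1 + Q * -b by linear_combination e, zpow_add₀ (root_ne hQ h), zpow_one,
      zpow_mul, zpow_natCast, h, one_zpow, mul_one]
  refine prod_nbij' (fun σ => σ ^ t) (fun σ => σ ^ a) (fun σ hσ => ?_) (fun σ hσ => ?_)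
    (fun σ hσ => ?_) (fun σ hσ => ?_) fun _ _ => rfl
  · exact (mem_primitiveRoots hQ).2 (((mem_primitiveRoots hQ).1 hσ).zpow_of_gcd_eq_one t
      (Int.isCoprime_iff_gcd_eq_one.1 ⟨a, b, e⟩))
  · exact (mem_primitiveRoots hQ).2 (((mem_primitiveRoots hQ).1 hσ).zpow_of_gcd_eq_one a
      (Int.isCoprime_iff_gcd_eq_one.1 ⟨t, b, by rw [mul_comm t a]; exact e⟩))
  · rw [← zpow_mul, mul_comm, key σ hσ]
  · rw [← zpow_mul, key σ hσ]

/-- one factor. -/
noncomputable def hp (J : Finset ι) (s k w : ι → ℤ) (c : ℤ) (E : ℕ) (ω : ℂ) : ℂ[X] :=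
  ∑ i ∈ insertNone J, C (((i.elim 1 fun j => c * s j : ℤ) : ℂ) * ω ^ (i.elim 0 k)) *
    X ^ (i.elim E fun j => (E + w j).toNat)

variable {J : Finset ι} {s k w : ι → ℤ} {c : ℤ} {E : ℕ}

theorem hp_eq (ω : ℂ) : hp J s k w c E ω =
    X ^ E + ∑ j ∈ J, C ((c : ℂ) * (s j * ω ^ k j)) * X ^ (E + w j).toNat := by
  simp [hp, sum_insertNone, mul_assoc]

theorem hp_eval (hw : ∀ j ∈ J, |w j| ≤ E) (ω : ℂ) {x : ℂ} (hx : x ≠ 0) :
    (hp J s k w c E ω).eval x = x ^ E * (1 + c * ∑ j ∈ J, s j * (ω ^ k j * x ^ w j)) := by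
  rw [hp_eq, eval_add, eval_finsetSum, mul_add, mul_one, mul_sum, mul_sum, eval_pow, eval_X]
  refine congrArg _ (sum_congr rfl fun j hj => ?_)
  have h := abs_le.1 (hw j hj)
  rw [eval_mul, eval_C, eval_pow, eval_X, ← zpow_natCast x (E + w j).toNat,
    Int.toNat_of_nonneg (by omega), zpow_add₀ hx, zpow_natCast]
  ring

theorem hp_deg {e : ℤ} (he : 0 < e) (hw' : ∀ j ∈ J, w j ≤ e) (ω : ℂ) :
    (hp J s k w c E ω).natDegree ≤ (E + e).toNat := by
  rw [hp_eq]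
  refine natDegree_add_le_of_degree_le ((natDegree_X_pow_le _).trans (by omega))
    (natDegree_sum_le_of_forall_le _ _ fun j hj => (natDegree_C_mul_X_pow_le _ _).trans ?_)
  have := hw' j hj
  omega

theorem hp_top {e : ℤ} (he : 0 < e) (ω : ℂ) : (hp J s k w c E ω).coeff (E + e).toNat =
    c * ∑ j ∈ J with w j = e, (s j : ℂ) * ω ^ k j := by
  rw [hp_eq, coeff_add, coeff_X_pow, if_neg (by omega), zero_add, finsetSum_coeff, sum_filter,
    mul_sum]
  refine sum_congr rfl fun j _ => ?_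
  rw [coeff_C_mul_X_pow]
  by_cases h : w j = e
  · rw [if_pos h, if_pos (by rw [h])]
  · rw [if_neg h, if_neg (by omega), mul_zero]

theorem core (h1 : SInt) (h2 : SNorm) (h3 : SRam) (hc : 2 ≤ |c|) {M Q : ℕ} (hM : 0 < M)
    (hQ : 0 < Q) (hMQ : M.Coprime Q) {τ : ℂ} (hτ : IsPrimitiveRoot τ (M * Q)) {t e : ℤ}
    (ht : IsCoprime t (Q : ℤ)) (hk : ∀ j, (Q : ℤ) ∣ k j - t * w j)
    (hU : IsU (1 + c * ∑ j ∈ J, (s j : ℂ) * τ ^ k j)) (hw : ∀ j ∈ J, |w j| ≤ E) (he : 0 < e)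
    (heE : e ≤ E) (hw' : ∀ j ∈ J, w j ≤ e)
    (htop : ∀ ω, IsPrimitiveRoot ω M → ∑ j ∈ J with w j = e, (s j : ℂ) * ω ^ k j ≠ 0) :
    ∃ f : ℤ[X], 2 ≤ |f.leadingCoeff| ∧ f.natDegree ≤ M * (2 * E) ∧
      (∀ n, |f.coeff n| ≤ (1 + ∑ j ∈ J, |c * s j|) ^ M) ∧
      (∀ α : ℂ, aeval α f = 0 → ∀ n : ℕ, 0 < n → α ^ n ≠ 1) ∧
      ∏ σ ∈ primitiveRoots Q ℂ, ‖aeval σ f‖ = 1 := by
  obtain ⟨f, hf⟩ := h1 M hM _ (insertNone J) (fun i => i.elim 1 fun j => c * s j)
    (fun i => i.elim 0 k) fun i => i.elim E fun j => (E + w j).toNat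
  have hf' : f.map (Int.castRingHom ℂ) = ∏ ω ∈ primitiveRoots M ℂ, hp J s k w c E ω := hf
  have inj : Function.Injective (Int.castRingHom ℂ) := RingHom.injective_int _
  have card : (primitiveRoots M ℂ).card = M.totient := Complex.card_primitiveRoots M
  have c0 : (c : ℂ) ≠ 0 := fun h => by
    have : c = 0 := by exact_mod_cast h
    simp [this] at hc
  have hev : ∀ x : ℂ, x ≠ 0 → aeval x f = ∏ ω ∈ primitiveRoots M ℂ,
      x ^ E * (1 + c * ∑ j ∈ J, s j * (ω ^ k j * x ^ w j)) := fun x hx => by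
    rw [aeval_def, eval₂_eq_eval_map, algebraMap_int_eq, hf', eval_prod]
    exact prod_congr rfl fun ω _ => hp_eval hw ω hx
  refine ⟨f, ?_, ?_, fun n => ?_, fun α hα n hn h => ?_, ?_⟩
  · obtain ⟨g, hg⟩ := h1 M hM _ (J.filter fun j => w j = e) s k fun _ => 0
    have e1 : ((g.eval 0 : ℤ) : ℂ) =
        ∏ ω ∈ primitiveRoots M ℂ, ∑ j ∈ J with w j = e, (s j : ℂ) * ω ^ k j := by
      have h4 := congrArg (eval 0) hg
      rw [eval_zero_map, eval_prod] at h4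
      simpa [eval_finsetSum] using h4
    have g0 : g.eval 0 ≠ 0 := fun h => by
      rw [h, Int.cast_zero, eq_comm, prod_eq_zero_iff] at e1
      obtain ⟨ω, h4, h5⟩ := e1
      exact htop ω ((mem_primitiveRoots hM).1 h4) h5
    have e2 : ((f.leadingCoeff : ℤ) : ℂ) = ((c ^ M.totient * g.eval 0 : ℤ) : ℂ) := by
      refine (leadingCoeff_map_of_injective inj f).symm.trans ?_
      rw [hf', leadingCoeff_prod, Int.cast_mul, e1, Int.cast_pow, ← card, ← prod_const,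
        ← prod_mul_distrib]
      refine prod_congr rfl fun ω hω => ?_
      rw [leadingCoeff, natDegree_eq_of_le_of_coeff_ne_zero (hp_deg he hw' ω) (by
        rw [hp_top he]
        exact mul_ne_zero c0 (htop ω ((mem_primitiveRoots hM).1 hω))), hp_top he]
    rw [Int.cast_injective e2, abs_mul, abs_pow]
    have h4 : |c| ≤ |c| ^ M.totient :=
      le_self_pow₀ (by linarith) (Nat.totient_pos.2 hM).ne'
    nlinarith [Int.one_le_abs g0]
  · rw [← natDegree_map_eq_of_injective inj, hf']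
    refine (natDegree_prod_le _ _).trans ((sum_le_card_nsmul _ _ (2 * E) fun ω _ =>
      (hp_deg he hw' ω).trans (by omega)).trans ?_)
    rw [card, smul_eq_mul]
    exact Nat.mul_le_mul_right _ (Nat.totient_le M)
  · have h4 := coeff_le (insertNone J) (fun i => i.elim E fun j => (E + w j).toNat)
      (fun ω i => ((i.elim 1 fun j => c * s j : ℤ) : ℂ) * ω ^ (i.elim 0 k))
      (H := ((1 + ∑ j ∈ J, |c * s j| : ℤ) : ℝ)) (primitiveRoots M ℂ) (fun ω hω => by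
        have h5 := norm_root hM ((mem_primitiveRoots hM).1 hω).pow_eq_one
        simp only [norm_mul, h5, mul_one, Complex.norm_intCast, sum_insertNone, Option.elim]
        push_cast
        simp) n
    rw [← hf, coeff_map, eq_intCast, Complex.norm_intCast, card] at h4
    have h5 : |f.coeff n| ≤ (1 + ∑ j ∈ J, |c * s j|) ^ M.totient := by exact_mod_cast h4
    exact h5.trans (pow_le_pow_right₀ (le_add_of_nonneg_right (sum_nonneg fun _ _ => abs_nonneg _))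
      (Nat.totient_le M))
  · have a0 := root_ne hn h
    rw [hev α a0, prod_eq_zero_iff] at hα
    obtain ⟨ω, h4, h5⟩ := hα
    refine not_int hc (IsIntegral.sum _ fun j _ => ?_)
      ((mul_eq_zero.1 h5).resolve_left (pow_ne_zero _ a0))
    exact (isIntegral_algebraMap (x := s j)).mul
      ((int_root hM ((mem_primitiveRoots hM).1 h4).pow_eq_one _).mul (int_root hn h _))
  · have e0 : ∀ x : ℂ, ∑ i ∈ insertNone J, ((i.elim 1 fun j => c * s j : ℤ) : ℂ) *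
        x ^ (i.elim 0 k) = 1 + c * ∑ j ∈ J, (s j : ℂ) * x ^ k j := fun x => by
      simp [sum_insertNone, mul_sum, mul_assoc]
    have h4 := h2 (M * Q) (Nat.mul_pos hM hQ) _ (insertNone J)
      (fun i => i.elim 1 fun j => c * s j) (fun i => i.elim 0 k) τ hτ (by rw [e0]; exact hU)
    simp only [e0] at h4
    rw [h3.1 M Q hM hQ hMQ fun x => 1 + c * ∑ j ∈ J, (s j : ℂ) * x ^ k j] at h4
    have h5 : ‖∏ ω ∈ primitiveRoots M ℂ, ∏ σ ∈ primitiveRoots Q ℂ,
        (1 + c * ∑ j ∈ J, (s j : ℂ) * (ω * σ) ^ k j)‖ = 1 := by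
      rcases h4 with h4 | h4 <;> rw [h4] <;> simp
    rw [← perm hQ ht fun σ => ‖aeval σ f‖, ← h5, prod_comm, norm_prod]
    refine prod_congr rfl fun σ hσ => ?_
    have h6 := ((mem_primitiveRoots hQ).1 hσ).pow_eq_one
    have s0 := root_ne hQ h6
    rw [hev _ (zpow_ne_zero t s0), norm_prod, norm_prod]
    refine prod_congr rfl fun ω _ => ?_
    rw [norm_mul, norm_pow, norm_root hQ h6, one_pow, one_mul]
    refine congrArg (fun z => ‖1 + (c : ℂ) * z‖) (sum_congr rfl fun j _ => ?_)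
    obtain ⟨d, hd⟩ := hk j
    rw [mul_zpow, ← zpow_mul, show k j = t * w j + Q * d by linear_combination hd,
      zpow_add₀ s0, zpow_mul σ Q, zpow_natCast, h6, one_zpow, mul_one]

theorem le_totient {Q : ℕ} (h : IsPrimePow Q) : Q ≤ 2 * Q.totient := by
  obtain ⟨p, n, hp, hn, rfl⟩ := (isPrimePow_nat_iff Q).1 h
  obtain ⟨n, rfl⟩ : ∃ m, n = m + 1 := ⟨n - 1, by omega⟩
  rw [Nat.totient_prime_pow_succ hp, pow_succ, mul_left_comm]
  have := hp.two_le
  exact Nat.mul_le_mul_left _ (by omega)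

end TA

open TA in
theorem sta (h1 : SInt) (h2 : SNorm) (h3 : SRam) (h4 : SProd) : STA := by
  intro S c hc
  obtain ⟨Y₀, hY⟩ := h4
  set R : ℕ := ∑ μ ∈ S.coeff.support, (μ.1.natAbs + μ.2.natAbs) with hR
  obtain ⟨H, hH⟩ : ∃ H : ℕ, (H : ℤ) = 1 + ∑ μ ∈ S.coeff.support, |c * S.coeff μ| :=
    ⟨_, Int.toNat_of_nonneg (add_nonneg zero_le_one (sum_nonneg fun _ _ => abs_nonneg _))⟩
  refine ⟨Y₀ + 4, 2 * R + H, ?_⟩
  rintro M Q τ α β t u v Y hM hQ hMQ hτ ht hα hβ hU ⟨e, he, hw', htop⟩ hY0 hC hQY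
  have τ0 := root_ne (Nat.mul_pos hM hQ.pos) hτ.pow_eq_one
  have hw : ∀ μ ∈ S.coeff.support,
      |u * μ.1 + v * μ.2| ≤ (R * (u.natAbs + v.natAbs) : ℕ) := fun μ hμ => by
    have h5 : μ.1.natAbs + μ.2.natAbs ≤ R :=
      single_le_sum (f := fun μ : ℤ × ℤ => μ.1.natAbs + μ.2.natAbs) (fun _ _ => Nat.zero_le _) hμ
    have h6 : |μ.1| + |μ.2| ≤ R := by
      have : ((μ.1.natAbs + μ.2.natAbs : ℕ) : ℤ) ≤ R := by exact_mod_cast h5
      simpa using this
    refine (abs_add_le _ _).trans ?_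
    rw [abs_mul, abs_mul]
    push_cast
    nlinarith [abs_nonneg u, abs_nonneg v, abs_nonneg μ.1, abs_nonneg μ.2]
  have heE : e ≤ (R * (u.natAbs + v.natAbs) : ℕ) := by
    obtain ⟨μ, hμ, -⟩ := exists_ne_zero_of_sum_ne_zero
      (htop _ (Complex.isPrimitiveRoot_exp M hM.ne'))
    obtain ⟨h5, h6⟩ := mem_filter.1 hμ
    exact h6 ▸ (le_abs_self _).trans (hw μ h5)
  have L1 : 1 ≤ u.natAbs + v.natAbs := Nat.pos_of_ne_zero fun h => by
    rw [h] at heE
    simp at heE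
    omega
  obtain ⟨f, f1, f2, f3, f4, f5⟩ := core (J := S.coeff.support) (s := fun μ => S.coeff μ)
    (k := fun μ => α * μ.1 + β * μ.2) (w := fun μ => u * μ.1 + v * μ.2) h1 h2 h3 hc hM hQ.pos
    hMQ hτ ht (fun μ => by
      have := (hα.mul_right μ.1).add (hβ.mul_right μ.2)
      rwa [show (α - t * u) * μ.1 + (β - t * v) * μ.2 =
        α * μ.1 + β * μ.2 - t * (u * μ.1 + v * μ.2) by ring] at this) (by
      convert hU using 3
      refine sum_congr rfl fun μ _ => ?_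
      rw [zpow_add₀ τ0, zpow_mul, zpow_mul, mul_assoc]) hw he heE hw' htop
  have h5 := hY Y (by omega) f Q (fun c => by simp [c] at f1)
    (f2.trans (by nlinarith [Nat.zero_le (H * M * (u.natAbs + v.natAbs))]))
    (fun n => (f3 n).trans (by
      rw [← hH]
      have h6 : H ^ M ≤ 2 ^ Y := (Nat.pow_le_pow_left Nat.lt_two_pow_self.le M).trans (by
        rw [← pow_mul]
        exact Nat.pow_le_pow_right two_pos (by nlinarith [Nat.mul_le_mul_left (H * M) L1]))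
      exact_mod_cast h6)) f4 hQ hQY
  rw [f5, Real.exp_neg, ← div_eq_mul_inv, div_le_one (Real.exp_pos _)] at h5
  have h6 : (2 : ℝ) ≤ |(f.leadingCoeff : ℝ)| := by exact_mod_cast f1
  have h7 := Real.log_le_log (by positivity) ((pow_le_pow_left₀ zero_le_two h6 _).trans h5)
  rw [Real.log_pow, Real.log_exp] at h7
  have h8 : (Q.totient : ℝ) ≤ 2 * (Y : ℝ) ^ 16 := by
    nlinarith [Real.log_two_gt_d9, Nat.cast_nonneg (α := ℝ) Q.totient]
  have h9 : Q.totient ≤ 2 * Y ^ 16 := by exact_mod_cast h8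
  have h10 := le_totient hQ
  rw [pow_succ]
  nlinarith [Nat.mul_le_mul_left (Y ^ 16) (show 4 ≤ Y by omega)]

end Pool.Agent.MP_c1891a_nt.H60
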